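import Pool.Agent.H71.WE.Targets

/-!
# E1A: contraction of a set without vertices of `K`, containing `z`
-/

set_option autoImplicit false

namespace Pool.Agent.H17.WEE

open Finset Pool.Agent.H71.WE

theorem ctr_pos {V : Type} [DecidableEq V] {S : Finset V} {x : V} (h : x ∈ S) :
    ctr S x = none := by
  unfold ctr; rw [dif_pos h]

theorem ctr_neg {V : Type} [DecidableEq V] {S : Finset V} {x : V} (h : x ∉ S) :
    ctr S x = some ⟨x, h⟩ := by
  unfold ctr; rw [dif_neg h]

theorem ctr_none {V : Type} [DecidableEq V] {S : Finset V} {x : V} :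
    ctr S x = none ↔ x ∈ S := by
  constructor
  · intro h
    by_contra hx
    rw [ctr_neg hx] at h
    exact absurd h (by simp)
  · exact ctr_pos

theorem ctr_inj {V : Type} [DecidableEq V] {S : Finset V} {x y : V} (hx : x ∉ S)
    (h : ctr S x = ctr S y) : x = y := by
  by_cases hy : y ∈ S
  · rw [ctr_neg hx, ctr_pos hy] at h
    exact absurd h (by simp)
  · rw [ctr_neg hx, ctr_neg hy] at h
    exact congrArg Subtype.val (Option.some.inj h)

theorem mem_pre {V W : Type} [Fintype V] [DecidableEq W] {f : V → W} {X : Finset W} {x : V} :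
    x ∈ pre f X ↔ f x ∈ X := by
  unfold pre
  rw [mem_filter]
  exact ⟨fun h => h.2, fun h => ⟨mem_univ _, h⟩⟩

theorem pf_E1A (h1 : T_CUT) (h2 : T_SEP) (h3 : T_GLU) (h4 : T_CTR) (h5 : T_TRN) (h6 : T_PTH)
    (h7 : T_QCT) : T_E1A := by
  intro V E _ _ _ G A r K v z e S hEH hzK hSK hcS hzS hIE
  obtain ⟨hr, hvK, hzv, heA, hJe, hcv, hEc, hKc⟩ := hEH
  obtain ⟨c1, -, c3⟩ := h4 V E G
  obtain ⟨ca, -, cc, cd, -⟩ := c3 S ⟨z, hzS⟩
  have hvS : v ∉ S := fun h => disjoint_left.1 hSK h hvK
  have hSu : S ≠ univ := fun h => hvS (h ▸ mem_univ v)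
  have hz1 : ctr S z = none := ctr_pos hzS
  have hEH1 : EH (mp G (ctr S)) A r (K.image (ctr S)) (ctr S v) (ctr S z) e := by
    refine ⟨hr, mem_image_of_mem _ hvK, ?_, heA, ?_, ?_, ?_, ?_⟩
    · intro h
      exact hvS (ctr_none.1 (h ▸ hz1))
    · rcases hJe with ⟨k1, k2⟩ | ⟨k1, k2⟩
      · exact Or.inl ⟨show ctr S (G.s e) = ctr S v by rw [k1],
          show ctr S (G.t e) = ctr S z by rw [k2]⟩
      · exact Or.inr ⟨show ctr S (G.s e) = ctr S z by rw [k1],
          show ctr S (G.t e) = ctr S v by rw [k2]⟩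
    · rw [c1]
      have e1 : pre (ctr S) {ctr S v} = {v} := by
        ext x
        rw [mem_pre, mem_singleton, mem_singleton]
        exact ⟨fun h => (ctr_inj hvS h.symm).symm, fun h => by rw [h]⟩
      rw [e1]
      exact hcv
    · intro Z hZ hZu
      rw [c1]
      exact hEc _ ((cc Z).2 hZ) (fun h => hZu ((cd Z).1 h))
    · intro Z hZ hZK
      rw [c1]
      refine hKc _ ((cc Z).2 hZ) ?_
      rw [disjoint_left]
      intro x hx hxK
      exact disjoint_left.1 hZK (mem_pre.1 hx) (mem_image_of_mem _ hxK)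
  obtain ⟨y1, hy1K, hy1v, D1, hD1, hCo1, hK1, hres1⟩ := hIE _ _ _ _ _ _ hEH1
  obtain ⟨y, hyK, rfl⟩ := mem_image.1 hy1K
  have hyS : y ∉ S := fun h => disjoint_left.1 hSK h hyK
  have hyv : y ≠ v := fun h => hy1v (by rw [h])
  obtain ⟨D0, hD0, hPt⟩ := pt_exists hCo1
  obtain ⟨p1, -, p3, -⟩ := h6 _ _ _ _ _ _ hPt
  have hcr : ∀ g, Cr (mp G (ctr S)) {ctr S z} g ↔ Cr G S g := by
    intro g
    rw [hz1]
    unfold Cr
    simp only [mem_singleton]
    show (ctr S (G.s g) = none ∧ ¬ ctr S (G.t g) = none) ∨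
      (¬ ctr S (G.s g) = none ∧ ctr S (G.t g) = none) ↔ _
    rw [ctr_none, ctr_none]
  obtain ⟨f, hfD, hfc⟩ := hPt.1 {ctr S z} (mem_singleton_self _) (by
    rw [mem_singleton]
    intro h
    exact hyS (ctr_none.1 (h.trans hz1)))
  have hfS : Cr G S f := (hcr f).1 hfc
  have huniq : ∀ g ∈ D0, Cr G S g → g = f := by
    intro g hg hc
    unfold cn at p3
    exact card_le_one.1 p3 g (mem_filter.2 ⟨hg, (hcr g).2 hc⟩) f (mem_filter.2 ⟨hfD, hfc⟩)
  have hout : ∀ g ∈ D0, g ≠ f → G.s g ∉ S ∧ G.t g ∉ S := by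
    intro g hg hgf
    have hnc : ¬ Cr G S g := fun h => hgf (huniq g hg h)
    by_cases ks : G.s g ∈ S
    · by_cases kt : G.t g ∈ S
      · exact absurd (show (mp G (ctr S)).s g = (mp G (ctr S)).t g from
          (ctr_pos ks).trans (ctr_pos kt).symm) (p1 g hg)
      · exact absurd (Or.inl ⟨ks, kt⟩) hnc
    · by_cases kt : G.t g ∈ S
      · exact absurd (Or.inr ⟨ks, kt⟩) hnc
      · exact ⟨ks, kt⟩
  have hD0A : D0 ⊆ A.erase e := hD0.trans hD1
  have hfA : f ∈ A := (mem_erase.1 (hD0A hfD)).2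
  have hfe : f ≠ e := (mem_erase.1 (hD0A hfD)).1
  obtain ⟨w, hwS, hwf, hwu⟩ : ∃ w ∈ S, (G.s f = w ∨ G.t f = w) ∧
      ((G.s f ∈ S → G.s f = w) ∧ (G.t f ∈ S → G.t f = w)) := by
    rcases hfS with ⟨k1, k2⟩ | ⟨k1, k2⟩
    · exact ⟨_, k1, Or.inl rfl, fun _ => rfl, fun h => absurd h k2⟩
    · exact ⟨_, k2, Or.inr rfl, fun h => absurd h k1, fun _ => rfl⟩
  have heS : Cr G S e := (jn_cr hJe S).2 (Or.inr ⟨hvS, hzS⟩)
  have hez : G.s e = z ∨ G.t e = z := by
    rcases hJe with ⟨_, k2⟩ | ⟨k1, _⟩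
    · exact Or.inr k2
    · exact Or.inl k1
  have hev : G.s e = v ∨ G.t e = v := by
    rcases hJe with ⟨k1, _⟩ | ⟨_, k2⟩
    · exact Or.inl k1
    · exact Or.inr k2
  obtain ⟨F, hFA, hFS, hFC, hFr⟩ := h7 V E G A r S z w e f hr hSu (fun X hX hXS =>
      hKc X hX (disjoint_of_subset_left hXS hSK)) hcS heA hfA hfe.symm heS hfS hzS hwS hez hwf
  have heF : e ∉ F := by
    intro h
    rcases hev with k | k
    · exact hvS (k ▸ (hFS e h).1)
    · exact hvS (k ▸ (hFS e h).2)
  refine ⟨y, hyK, hyv, D0 ∪ F, ?_, ?_, ?_, ?_⟩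
  · refine union_subset hD0A ?_
    intro g hg
    exact mem_erase.2 ⟨fun h => heF (h ▸ hg), hFA hg⟩
  · refine h5 V E G S {z, w} D0 F z y ?_ (fun _ => by simp) (fun h => absurd h hyS) ?_ hPt.1
    · intro g hg hc
      rw [huniq g hg hc]
      exact ⟨fun h => by rw [hwu.1 h]; simp, fun h => by rw [hwu.2 h]; simp⟩
    · intro x hx x' hx'
      rw [mem_insert, mem_singleton] at hx hx'
      rcases hx with rfl | rfl <;> rcases hx' with rfl | rfl
      · exact co_refl _ _ _
      · exact hFC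
      · exact co_symm hFC
      · exact co_refl _ _ _
  · intro g hg
    rcases mem_union.1 hg with hg | hg
    · have hk := hK1 g (hD0 hg)
      have aux : ∀ x : V, x ∈ K → (ctr S x ∈ K.image (ctr S) → ctr S x = ctr S y) → x = y :=
        fun x hx h => ctr_inj (fun hxS => disjoint_left.1 hSK hxS hx) (h (mem_image_of_mem _ hx))
      exact ⟨fun h => aux _ h hk.1, fun h => aux _ h hk.2⟩
    · exact ⟨fun h => absurd h (disjoint_left.1 hSK (hFS g hg).1),
        fun h => absurd h (disjoint_left.1 hSK (hFS g hg).2)⟩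
  · have hCF : CF (fun X => cn G (A \ insert e (D0 ∪ F)) X + sep v y X) :=
      (h2 V).2 _ _ (h1 V E G _) ((h2 V).1 v y)
    refine h3 V _ hCF r r S hr hr le_rfl ⟨z, hzS⟩ hSu ?_ ?_ ?_
    · intro X hX hXS _
      refine (hFr X hX hXS).trans (le_trans ?_ (Nat.le_add_right _ _))
      refine card_le_card fun g hg => ?_
      rw [mem_filter, mem_sdiff] at hg ⊢
      refine ⟨⟨hg.1.1, ?_⟩, hg.2⟩
      intro hin
      apply hg.1.2
      rw [mem_union, mem_insert, mem_singleton]
      rcases mem_insert.1 hin with k | k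
      · exact Or.inr (Or.inl k)
      · rcases mem_union.1 k with k | k
        · by_cases hgf : g = f
          · exact Or.inr (Or.inr hgf)
          · exfalso
            have ho := hout g k hgf
            rcases hg.2 with ⟨q1, _⟩ | ⟨_, q2⟩
            · exact ho.1 (hXS q1)
            · exact ho.2 (hXS q2)
        · exact Or.inl k
    · intro X hSX hXu
      obtain ⟨Z, rfl⟩ := ca X (Or.inl hSX)
      have hZ : Z.Nonempty := (cc Z).1 ⟨z, hSX hzS⟩
      have hZu : Z ≠ univ := fun h => hXu ((cd Z).2 h)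
      have hres := hres1 Z hZ hZu
      rw [c1] at hres
      have hsep : sep (ctr S v) (ctr S y) Z = sep v y (pre (ctr S) Z) := by
        unfold sep
        simp only [mem_pre]
      rw [hsep] at hres
      refine hres.trans (Nat.add_le_add_right ?_ _)
      refine card_le_card fun g hg => ?_
      rw [mem_filter, mem_sdiff] at hg ⊢
      refine ⟨⟨hg.1.1, ?_⟩, hg.2⟩
      intro hin
      apply hg.1.2
      rcases mem_insert.1 hin with k | k
      · exact mem_insert.2 (Or.inl k)
      · rcases mem_union.1 k with k | k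
        · exact mem_insert.2 (Or.inr (hD0 k))
        · exfalso
          have ho := hFS g k
          rcases hg.2 with ⟨_, q2⟩ | ⟨q1, _⟩
          · exact q2 (hSX ho.2)
          · exact q1 (hSX ho.1)
    · have hsep : sep v y S = 0 := by
        unfold sep
        rw [if_neg]
        rintro (⟨k, _⟩ | ⟨_, k⟩)
        · exact hvS k
        · exact hyS k
      have hins : insert e (D0 ∪ F) ⊆ A := by
        intro g hg
        rcases mem_insert.1 hg with k | k
        · exact k ▸ heA
        · rcases mem_union.1 k with k | k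
          · exact (mem_erase.1 (hD0A k)).2
          · exact hFA k
      have hsd := cn_sdiff G hins S
      have h2le : 2 ≤ cn G (insert e (D0 ∪ F)) S := by
        have hc2 : ({e, f} : Finset E).card = 2 := card_pair hfe.symm
        rw [← hc2]
        refine card_le_card fun g hg => ?_
        rw [mem_insert, mem_singleton] at hg
        rw [mem_filter]
        rcases hg with rfl | rfl
        · exact ⟨mem_insert_self _ _, heS⟩
        · exact ⟨mem_insert_of_mem (mem_union_left _ hfD), hfS⟩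
      show cn G (A \ insert e (D0 ∪ F)) S + sep v y S ≤ r + 1
      rw [hsep]
      omega

end Pool.Agent.H17.WEE
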