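import Pool.Agent.H71.WE.Targets

/-!
# TRN: transit through a contracted set
-/

set_option autoImplicit false

namespace Pool.Agent.H17.WEE

open Finset Pool.Agent.H71.WE

variable {V E : Type} [Fintype V] [DecidableEq V] [DecidableEq E]

omit [Fintype V] in
theorem ctr_mem {S X : Finset V} (h : S ⊆ X ∨ Disjoint S X) (v : V) :
    ctr S v ∈ X.image (ctr S) ↔ v ∈ X := by
  constructor
  · intro hv
    obtain ⟨x, hx, hxv⟩ := mem_image.1 hv
    unfold ctr at hxv
    by_cases h1 : x ∈ S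
    · by_cases h2 : v ∈ S
      · rcases h with h | h
        · exact h h2
        · exact absurd hx (disjoint_left.1 h h1)
      · rw [dif_pos h1, dif_neg h2] at hxv
        exact absurd hxv (by simp)
    · by_cases h2 : v ∈ S
      · rw [dif_neg h1, dif_pos h2] at hxv
        exact absurd hxv (by simp)
      · rw [dif_neg h1, dif_neg h2] at hxv
        have h3 := congrArg Subtype.val (Option.some.inj hxv)
        simp only at h3
        rw [← h3]
        exact hx
  · intro hv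
    exact mem_image_of_mem _ hv

omit [Fintype V] [DecidableEq E] in
theorem co_lift {G : Gr V E} {S X : Finset V} (h : S ⊆ X ∨ Disjoint S X) {D : Finset E} {a b : V}
    (h5 : Co (mp G (ctr S)) D (ctr S a) (ctr S b)) (ha : a ∈ X) (hb : b ∉ X) :
    ∃ g ∈ D, Cr G X g := by
  obtain ⟨g, hg, hc⟩ := h5 (X.image (ctr S)) ((ctr_mem h a).2 ha)
    (fun hb' => hb ((ctr_mem h b).1 hb'))
  refine ⟨g, hg, ?_⟩
  rcases hc with ⟨h1, h2⟩ | ⟨h1, h2⟩
  · exact Or.inl ⟨(ctr_mem h _).1 h1, fun h3 => h2 ((ctr_mem h _).2 h3)⟩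
  · exact Or.inr ⟨fun h3 => h1 ((ctr_mem h _).2 h3), (ctr_mem h _).1 h2⟩

theorem pf_TRN : T_TRN := by
  intro V E _ _ _ G S T D F a b h1 h2 h3 h4 h5 X ha hb
  by_cases c1 : ∃ x ∈ T, x ∈ X
  · by_cases c2 : ∃ y ∈ T, y ∉ X
    · obtain ⟨x, hxT, hx⟩ := c1
      obtain ⟨y, hyT, hy⟩ := c2
      obtain ⟨e, he, hc⟩ := h4 x hxT y hyT X hx hy
      exact ⟨e, mem_union_right _ he, hc⟩
    · have hT : ∀ y ∈ T, y ∈ X := by
        intro y hy
        by_contra h
        exact c2 ⟨y, hy, h⟩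
      have hb' : b ∉ X ∪ S := by
        rw [mem_union]
        rintro (h | h)
        · exact hb h
        · exact hb (hT b (h3 h))
      obtain ⟨g, hg, hc⟩ := co_lift (G := G) (Or.inl subset_union_right) h5
        (mem_union_left S ha) hb'
      refine ⟨g, mem_union_left _ hg, ?_⟩
      rcases hc with ⟨k1, k2⟩ | ⟨k1, k2⟩
      · rw [mem_union, not_or] at k2
        rcases mem_union.1 k1 with k3 | k3
        · exact Or.inl ⟨k3, k2.1⟩
        · have hcr : Cr G S g := Or.inl ⟨k3, k2.2⟩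
          exact Or.inl ⟨hT _ ((h1 g hg hcr).1 k3), k2.1⟩
      · rw [mem_union, not_or] at k1
        rcases mem_union.1 k2 with k3 | k3
        · exact Or.inr ⟨k1.1, k3⟩
        · have hcr : Cr G S g := Or.inr ⟨k1.2, k3⟩
          exact Or.inr ⟨k1.1, hT _ ((h1 g hg hcr).2 k3)⟩
  · have hT : ∀ y ∈ T, y ∉ X := fun y hy h => c1 ⟨y, hy, h⟩
    have ha' : a ∈ X \ S := mem_sdiff.2 ⟨ha, fun h => hT a (h2 h) ha⟩
    have hb' : b ∉ X \ S := fun h => hb (mem_sdiff.1 h).1
    obtain ⟨g, hg, hc⟩ := co_lift (G := G) (Or.inr disjoint_sdiff) h5 ha' hb'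
    refine ⟨g, mem_union_left _ hg, ?_⟩
    rcases hc with ⟨k1, k2⟩ | ⟨k1, k2⟩
    · rw [mem_sdiff] at k1
      refine Or.inl ⟨k1.1, fun k3 => ?_⟩
      have k4 : G.t g ∈ S := by
        by_contra h
        exact k2 (mem_sdiff.2 ⟨k3, h⟩)
      have hcr : Cr G S g := Or.inr ⟨k1.2, k4⟩
      exact hT _ ((h1 g hg hcr).2 k4) k3
    · rw [mem_sdiff] at k2
      refine Or.inr ⟨fun k3 => ?_, k2.1⟩
      have k4 : G.s g ∈ S := by
        by_contra h
        exact k1 (mem_sdiff.2 ⟨k3, h⟩)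
      have hcr : Cr G S g := Or.inl ⟨k4, k2.2⟩
      exact hT _ ((h1 g hg hcr).1 k4) k3

end Pool.Agent.H17.WEE
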